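import Pool.Agent.H53.PNF.D

/-!
# PNF, PR2: the product of the `q^e` is at most `2^n`
-/

set_option autoImplicit false

namespace Pool.PNF

open Polynomial NumberField IsDedekindDomain Pool.HYP Pool.TOW Pool.AVS Pool.T1 Pool.NF Pool.PRK

/-- **PR2.** -/
theorem pr2 : PR2Stmt := by
  intro K _ _ s e h
  have hI : (2 : 𝓞 K) ∈ ∏ P ∈ s, P.asIdeal ^ e P := by
    rw [← IsDedekindDomain.inf_pow_eq_prod_of_prime s (fun P => P.asIdeal) e
      (fun P _ => P.prime) (fun P _ Q _ hPQ h1 => hPQ (HeightOneSpectrum.ext h1))]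
    rw [Submodule.mem_finsetInf]
    exact h
  have hN : ∀ P : HeightOneSpectrum (𝓞 K), Nm P = Ideal.absNorm P.asIdeal := by
    intro P
    rw [Ideal.absNorm_apply, Submodule.cardQuot_apply]
    rfl
  have h1 : Ideal.absNorm (∏ P ∈ s, P.asIdeal ^ e P) = ∏ P ∈ s, Nm P ^ e P := by
    rw [map_prod]
    apply Finset.prod_congr rfl
    intro P _
    rw [map_pow, hN]
  have h2 : Ideal.absNorm (Ideal.span {(2 : 𝓞 K)}) = 2 ^ dg K := by
    rw [Ideal.absNorm_span_singleton]
    have e1 : Algebra.norm ℤ (2 : 𝓞 K) = 2 ^ dg K := by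
      have e2 : (2 : 𝓞 K) = algebraMap ℤ (𝓞 K) 2 := by simp
      rw [e2, Algebra.norm_algebraMap, RingOfIntegers.rank]
    rw [e1, Int.natAbs_pow]
    rfl
  rw [← h1, ← h2]
  apply Nat.le_of_dvd
  · rw [h2]; positivity
  · apply Ideal.absNorm_dvd_absNorm_of_le
    rw [Ideal.span_singleton_le_iff_mem]
    exact hI

end Pool.PNF
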