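import Pool.Agent.H53.PNF.D
import Pool.Agent.H88.T1.USMK

/-!
# PNF, RC2N: the number of the classes which are classes of divisors above two
-/

set_option autoImplicit false

namespace Pool.PNF

open Polynomial NumberField IsDedekindDomain Pool.HYP Pool.TOW Pool.AVS Pool.T1 Pool.NF Pool.PRK

namespace RC85

theorem nsq_mul {K : Type} [Field K] {f α β : K[X]} (h : NSq f α) (h' : NSq f β) :
    NSq f (α * β) := by
  unfold NSq at *
  rw [map_mul, map_mul]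
  exact h.mul h'

theorem uout_mul {K : Type} [Field K] [NumberField K] (T : Finset (HeightOneSpectrum (𝓞 K)))
    (f : (𝓞 K)[X]) {α β : K[X]} (h : UOut T f α) (h' : UOut T f β) : UOut T f (α * β) :=
  ⟨h.1.mul_left h'.1, nsq_mul h.2.1 h'.2.1, fun P hP =>
    usmk (𝓞 K) K P.asIdeal f α β (h.2.2 P hP) (h'.2.2 P hP)⟩

end RC85

open RC85 in
open Classical in
/-- **RC2N.** -/
theorem rc2n : DYKStmt → RC2NStmt := by
  intro hDYK K _ _ D Y m hD f hf hfin hcard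
  obtain ⟨ψ, hψ⟩ := hDYK K D Y hD f hf
  have hrep : ∀ ξ : (AdjoinRoot (fk K f))ˣ ⧸ SqG (fk K f), ∃ (α : K[X]), ξ ∈ RcG K D.T f →
      ∃ u : (AdjoinRoot (fk K f))ˣ,
      (QuotientGroup.mk u : (AdjoinRoot (fk K f))ˣ ⧸ SqG (fk K f)) = ξ ∧
      AdjoinRoot.mk (fk K f) α = (u : AdjoinRoot (fk K f)) ∧ UOut D.T f α := by
    intro ξ
    by_cases h : ξ ∈ RcG K D.T f
    · obtain ⟨u, α, h1, h2, h3⟩ := h
      exact ⟨α, fun _ => ⟨u, h1, h2, h3⟩⟩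
    · exact ⟨0, fun h' => absurd h' h⟩
  choose A hA using hrep
  set S : Finset ((AdjoinRoot (fk K f))ˣ ⧸ SqG (fk K f)) := hfin.toFinset with hS
  have hScard : S.card = (RcG K D.T f).ncard := by
    rw [hS, Set.ncard_eq_toFinset_card _ hfin]
  have hpos : 0 < 2 ^ dg K := by positivity
  obtain ⟨c, -, hc⟩ := Finset.exists_le_card_fiber_of_mul_le_card_of_maps_to
    (s := S) (t := (Finset.univ : Finset (Fin (2 ^ dg K)))) (f := fun ξ => ψ (A ξ)) (n := 2 ^ m)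
    (fun a _ => Finset.mem_univ _) ⟨⟨0, hpos⟩, Finset.mem_univ _⟩ (by
      rw [Finset.card_univ, Fintype.card_fin, hScard, ← pow_add, add_comm]
      exact hcard)
  set F := S.filter (fun ξ => ψ (A ξ) = c) with hF
  have hF0 : F.Nonempty := by
    rw [← Finset.card_pos]
    exact lt_of_lt_of_le (by positivity) hc
  obtain ⟨ξ₀, hξ₀⟩ := hF0
  have hmem : ∀ ξ ∈ F, ξ ∈ RcG K D.T f ∧ ψ (A ξ) = c := by
    intro ξ hξ
    rw [hF, Finset.mem_filter, hS, Set.Finite.mem_toFinset] at hξ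
    exact hξ
  obtain ⟨h0, h0c⟩ := hmem ξ₀ hξ₀
  obtain ⟨u₀, hu₀, hα₀, hU₀⟩ := hA ξ₀ h0
  have hsub : RcL D.T f ⊆ RcG K D.T f := by
    rintro ξ ⟨u, α, h1, h2, h3, -⟩
    exact ⟨u, α, h1, h2, h3⟩
  have himg : (fun ξ => ξ₀ * ξ) '' (F : Set ((AdjoinRoot (fk K f))ˣ ⧸ SqG (fk K f))) ⊆
      RcL D.T f := by
    rintro _ ⟨ξ, hξ, rfl⟩
    obtain ⟨h1, h1c⟩ := hmem ξ hξ
    obtain ⟨u, hu, hα, hU⟩ := hA ξ h1
    refine ⟨u₀ * u, A ξ₀ * A ξ, ?_, ?_, uout_mul _ _ hU₀ hU, ?_⟩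
    · show QuotientGroup.mk (u₀ * u) = ξ₀ * ξ
      rw [QuotientGroup.mk_mul, hu₀, hu]
    · rw [map_mul, hα₀, hα, Units.val_mul]
    · exact hψ _ _ hU₀.1 hU₀.2.1 hU.1 hU.2.1 (h0c.trans h1c.symm)
  have hinj : Function.Injective
      (fun ξ : (AdjoinRoot (fk K f))ˣ ⧸ SqG (fk K f) => ξ₀ * ξ) := by
    intro a b hab
    have h1 : ξ₀⁻¹ * (ξ₀ * a) = ξ₀⁻¹ * (ξ₀ * b) := congrArg (fun z => ξ₀⁻¹ * z) hab
    rwa [inv_mul_cancel_left, inv_mul_cancel_left] at h1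
  calc 2 ^ m ≤ F.card := hc
    _ = (F : Set ((AdjoinRoot (fk K f))ˣ ⧸ SqG (fk K f))).ncard := (Set.ncard_coe_finset F).symm
    _ = ((fun ξ => ξ₀ * ξ) '' (F : Set ((AdjoinRoot (fk K f))ˣ ⧸ SqG (fk K f)))).ncard :=
        (Set.ncard_image_of_injective _ hinj).symm
    _ ≤ (RcL D.T f).ncard := Set.ncard_le_ncard himg (hfin.subset hsub)

end Pool.PNF
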