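import Pool.Agent.H53.PNF.D
import Pool.Agent.H61.NF.IRL2
import Pool.Agent.H86.HYP.ONE

/-!
# PNF, DYK: the index of the classes which are classes of divisors above two
-/

set_option autoImplicit false
set_option linter.unusedSectionVars false

namespace Pool.PNF

open Polynomial NumberField IsDedekindDomain Pool.HYP Pool.TOW Pool.AVS Pool.T1 Pool.NF Pool.PRK

namespace DYK85

section Prime

variable {K : Type} [Field K] [NumberField K]

theorem int_RP (P : HeightOneSpectrum (𝓞 K)) (a : 𝓞 K) : algebraMap (𝓞 K) K a ∈ RP K P :=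
  ⟨1, fun h => P.isPrime.ne_top ((Ideal.eq_top_iff_one _).2 h), a, by rw [map_one, one_mul]⟩

theorem mem_iff (P : HeightOneSpectrum (𝓞 K)) (a : 𝓞 K) :
    a ∈ P.asIdeal ↔ a = 0 ∨ (algebraMap (𝓞 K) K a)⁻¹ ∉ RP K P := by
  constructor
  · intro h
    by_cases h0 : a = 0
    · exact Or.inl h0
    · refine Or.inr ?_
      rintro ⟨m, hm, b, hb⟩
      apply hm
      have ha : algebraMap (𝓞 K) K a ≠ 0 := by
        rw [Ne, FaithfulSMul.algebraMap_eq_zero_iff]; exact h0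
      have h1 : m = b * a := by
        apply FaithfulSMul.algebraMap_injective (𝓞 K) K
        rw [map_mul, ← hb, mul_assoc, inv_mul_cancel₀ ha, mul_one]
      rw [h1]
      exact P.asIdeal.mul_mem_left b h
  · rintro (h | h)
    · rw [h]; exact P.asIdeal.zero_mem
    · by_contra hc
      apply h
      have ha0 : a ≠ 0 := fun h0 => hc (h0 ▸ P.asIdeal.zero_mem)
      have ha : algebraMap (𝓞 K) K a ≠ 0 := by
        rw [Ne, FaithfulSMul.algebraMap_eq_zero_iff]; exact ha0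
      exact ⟨a, hc, 1, by rw [mul_inv_cancel₀ ha, map_one]⟩

theorem RP_inj (P Q : HeightOneSpectrum (𝓞 K)) (h : RP K P = RP K Q) : P = Q := by
  apply HeightOneSpectrum.ext
  ext a
  rw [mem_iff, mem_iff, h]

theorem finite_two : {P : HeightOneSpectrum (𝓞 K) | (2 : 𝓞 K) ∈ P.asIdeal}.Finite := by
  have h := Ideal.finite_factors (R := 𝓞 K) (I := Ideal.span {(2 : 𝓞 K)}) (by
    rw [Ne, Ideal.zero_eq_bot, Ideal.span_singleton_eq_bot]
    exact two_ne_zero)
  refine h.subset ?_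
  intro P hP
  rw [Set.mem_ofPred_eq, Ideal.dvd_span_singleton]
  exact hP

end Prime

section Local

variable {K : Type} [Field K] [NumberField K] {L : Type} [Field L] {O : ValuationSubring L}
  {ι : K →+* L} {P : HeightOneSpectrum (𝓞 K)}

/-- The map from the integers to the valuation ring. -/
noncomputable def phi (h : ∀ x : K, ι x ∈ O ↔ x ∈ RP K P) : 𝓞 K →+* O :=
  (ι.comp (algebraMap (𝓞 K) K)).codRestrict O.toSubring (fun a => (h _).2 (int_RP P a))

theorem phi_coe (h : ∀ x : K, ι x ∈ O ↔ x ∈ RP K P) (a : 𝓞 K) :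
    ((phi h a : O) : L) = ι (algebraMap (𝓞 K) K a) := rfl

theorem two_inv (h : ∀ x : K, ι x ∈ O ↔ x ∈ RP K P) (h2 : (2 : 𝓞 K) ∈ P.asIdeal) :
    (2 : L)⁻¹ ∉ O := by
  intro hc
  have h1 : ι ((algebraMap (𝓞 K) K 2)⁻¹) ∈ O := by
    rw [map_inv₀, map_ofNat, map_ofNat]
    exact hc
  rcases (mem_iff P 2).1 h2 with h3 | h3
  · exact two_ne_zero h3
  · exact h3 ((h _).1 h1)

/-- The polynomial over the valuation ring. -/
theorem oL_phi (h : ∀ x : K, ι x ∈ O ↔ x ∈ RP K P) (f : (𝓞 K)[X]) :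
    oL O (f.map (phi h)) = (fk K f).map ι := by
  rw [oL, fk, Polynomial.map_map, Polynomial.map_map]
  rfl

theorem ker_res (h : ∀ x : K, ι x ∈ O ↔ x ∈ RP K P) (a : 𝓞 K) :
    IsLocalRing.residue O (phi h a) = 0 ↔ a ∈ P.asIdeal := by
  rw [IsLocalRing.residue_eq_zero_iff, IsLocalRing.mem_maximalIdeal, mem_nonunits_iff,
    mem_iff P a]
  by_cases ha : a = 0
  · subst ha
    simp
  · have ha' : algebraMap (𝓞 K) K a ≠ 0 := by
      rw [Ne, FaithfulSMul.algebraMap_eq_zero_iff]; exact ha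
    have h1 : IsUnit (phi h a) ↔ (ι (algebraMap (𝓞 K) K a))⁻¹ ∈ O := by
      constructor
      · rintro ⟨u, hu⟩
        have h3 : ((u : O) : L) * (((u⁻¹ : Oˣ) : O) : L) = 1 := by
          rw [← MulMemClass.coe_mul, u.mul_inv]
          rfl
        have h2 : ι (algebraMap (𝓞 K) K a) * (((u⁻¹ : Oˣ) : O) : L) = 1 := by
          rw [← phi_coe h, ← hu]
          exact h3
        rw [inv_eq_of_mul_eq_one_right h2]
        exact ((u⁻¹ : Oˣ) : O).2
      · intro h2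
        refine IsUnit.of_mul_eq_one ⟨_, h2⟩ ?_
        apply Subtype.ext
        show (ι (algebraMap (𝓞 K) K a)) * (ι (algebraMap (𝓞 K) K a))⁻¹ = 1
        exact mul_inv_cancel₀ (by rw [Ne, map_eq_zero]; exact ha')
    rw [h1, ← map_inv₀, h]
    constructor
    · exact fun h2 => Or.inr h2
    · rintro (h2 | h2)
      · exact absurd h2 ha
      · exact h2

theorem surj_res (h : ∀ x : K, ι x ∈ O ↔ x ∈ RP K P) (hC : Cpl K L O ι) :
    Function.Surjective ((IsLocalRing.residue O).comp (phi h)) := by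
  intro z
  obtain ⟨r, rfl⟩ := IsLocalRing.residue_surjective z
  obtain ⟨ϖ, hϖ, hϖ0⟩ := Submodule.exists_mem_ne_zero_of_ne_bot P.ne_bot
  have ht : (ι (algebraMap (𝓞 K) K ϖ)) ≠ 0 := by
    rw [Ne, map_eq_zero, FaithfulSMul.algebraMap_eq_zero_iff]
    exact hϖ0
  obtain ⟨x, hx⟩ := hC.dense (r : L) _ ht
  have hxO : ι x ∈ O := by
    have e1 : ι x = (r : L) - ((r : L) - ι x) / ι (algebraMap (𝓞 K) K ϖ) *
        (phi h ϖ : O) := by
      rw [phi_coe]
      field_simp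
      ring
    rw [e1]
    exact O.sub_mem r.2 (O.mul_mem _ _ hx (phi h ϖ).2)
  obtain ⟨m, hm, b, hb⟩ := (h x).1 hxO
  obtain ⟨m', hm'⟩ : ∃ m' : 𝓞 K, 1 - m * m' ∈ P.asIdeal := by
    have hm0 : Ideal.Quotient.mk P.asIdeal m ≠ 0 :=
      fun h => hm (Ideal.Quotient.eq_zero_iff_mem.1 h)
    have := P.isMaximal
    let _ := Ideal.Quotient.field P.asIdeal
    obtain ⟨m', hm'⟩ := Ideal.Quotient.mk_surjective (Ideal.Quotient.mk P.asIdeal m)⁻¹
    refine ⟨m', ?_⟩
    rw [← Ideal.Quotient.eq_zero_iff_mem, map_sub, map_one, map_mul, hm',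
      mul_inv_cancel₀ hm0, sub_self]
  refine ⟨m' * b, ?_⟩
  rw [RingHom.comp_apply]
  have e0 : r - phi h (m' * b) = ⟨_, hx⟩ * phi h ϖ + ⟨_, hxO⟩ * phi h (1 - m * m') := by
    apply Subtype.ext
    have hb' : ι (algebraMap (𝓞 K) K b) = ι (algebraMap (𝓞 K) K m) * ι x := by
      rw [← hb, map_mul]
    show (r : L) - ((phi h (m' * b) : O) : L) = ((r : L) - ι x) / ι (algebraMap (𝓞 K) K ϖ) *
      ((phi h ϖ : O) : L) + ι x * ((phi h (1 - m * m') : O) : L)
    rw [phi_coe, phi_coe, phi_coe, map_mul, map_mul, map_sub, map_one, map_sub, map_one,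
      map_mul, map_mul, hb']
    field_simp
    ring
  have e1 : IsLocalRing.residue O (r - phi h (m' * b)) = 0 := by
    rw [e0, map_add, map_mul, map_mul, (ker_res h ϖ).2 hϖ, (ker_res h _).2 hm', mul_zero,
      mul_zero, add_zero]
  rw [map_sub, sub_eq_zero] at e1
  exact e1.symm

/-- The residue fields are the same. -/
theorem irr_res (h : ∀ x : K, ι x ∈ O ↔ x ∈ RP K P) (hC : Cpl K L O ι) (f : (𝓞 K)[X])
    (hf : Irreducible (md P.asIdeal f)) : Irreducible (rd O (f.map (phi h))) := by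
  let ψ : 𝓞 K →+* IsLocalRing.ResidueField O := (IsLocalRing.residue O).comp (phi h)
  have hk : ∀ a ∈ P.asIdeal, ψ a = 0 := fun a ha => (ker_res h a).2 ha
  let j : (𝓞 K ⧸ P.asIdeal) →+* IsLocalRing.ResidueField O := Ideal.Quotient.lift P.asIdeal ψ hk
  have hj : ∀ a, j (Ideal.Quotient.mk P.asIdeal a) = ψ a := fun a => rfl
  have hbij : Function.Bijective j := by
    constructor
    · rw [injective_iff_map_eq_zero]
      intro a ha
      obtain ⟨b, rfl⟩ := Ideal.Quotient.mk_surjective a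
      rw [hj] at ha
      rw [Ideal.Quotient.eq_zero_iff_mem]
      exact (ker_res h b).1 ha
    · intro z
      obtain ⟨a, ha⟩ := surj_res h hC z
      exact ⟨Ideal.Quotient.mk P.asIdeal a, ha⟩
  let e : (𝓞 K ⧸ P.asIdeal) ≃+* IsLocalRing.ResidueField O := RingEquiv.ofBijective j hbij
  have h1 : rd O (f.map (phi h)) = Polynomial.mapEquiv e (md P.asIdeal f) := by
    rw [rd, md, Polynomial.mapEquiv_apply, Polynomial.map_map, Polynomial.map_map]
    rfl
  rw [h1]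
  exact (MulEquiv.irreducible_iff (Polynomial.mapEquiv e)).2 hf

/-- `f` is irreducible modulo the primes of `T'`. -/
theorem ir3_of (h : ∀ x : K, ι x ∈ O ↔ x ∈ RP K P) (hC : Cpl K L O ι) {D : DatN K} {Y : ℕ}
    (hD : D.Ok) (hP : P ∈ D.T') {f : (𝓞 K)[X]} (hf : f ∈ FamN D Y) :
    Ir3 O (f.map (phi h)) := by
  obtain ⟨hfm, hfd, -, -, hf'⟩ := hf
  obtain ⟨-, -, hDT', -⟩ := hD
  obtain ⟨hρm, hρd, hρi⟩ := hDT' P hP
  have hz := hf' P hP
  refine ⟨hfm.map _, by rw [hfm.natDegree_map, hfd], irr_res h hC f ?_⟩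
  have e1 : md P.asIdeal (D.ρ P) = md P.asIdeal f := by
    ext i
    have := hz i
    rw [coeff_map, coeff_map]
    rw [coeff_sub] at this
    exact (Ideal.Quotient.eq.2 (by rw [← neg_sub]; exact neg_mem this))
  rw [← e1]
  exact hρi

end Local

/-- One prime above two. -/
theorem local_psi (hCMP : CMP2Stmt) (hDYA : DYAStmt) (hDYI : DYIStmt) (hTRC : TRCStmt)
    {K : Type} [Field K] [NumberField K] {D : DatN K} {Y : ℕ} (hD : D.Ok) {f : (𝓞 K)[X]}
    (hf : f ∈ FamN D Y) (P : HeightOneSpectrum (𝓞 K)) (hP : (2 : 𝓞 K) ∈ P.asIdeal) :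
    ∃ e : ℕ, (2 : 𝓞 K) ∈ P.asIdeal ^ e ∧ ∃ ψ : K[X] → Fin (Nm P ^ e), ∀ α β : K[X],
      IsCoprime α (fk K f) → NSq (fk K f) α → IsCoprime β (fk K f) → NSq (fk K f) β →
      ψ α = ψ β → ∀ (L : Type) [Field L] (O : ValuationSubring L) (ι : K →+* L),
      Cpl K L O ι → (∀ x : K, ι x ∈ O ↔ x ∈ RP K P) →
      LocSol ((fk K f).map ι) ((α * β).map ι) := by
  obtain ⟨L, _, O, ι, hC, hmem⟩ := hCMP K P
  have h2 := two_inv hmem hP
  obtain ⟨P', π, e, hDyd, hmem', h2e, hq⟩ := hDYA K L O ι hC h2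
  have hPP : P' = P := by
    apply RP_inj
    ext x
    rw [← hmem', hmem]
  subst hPP
  have hfm : f.Monic := hf.1
  have hIr := ir3_of hmem hC hD (hD.2.2.2 P' (Or.inl hP)) hf
  obtain ⟨ψ, hψ⟩ := hDYI L O π e hDyd (f.map (phi hmem)) hIr
  rw [oL_phi] at hψ
  refine ⟨e, h2e, fun α => Fin.cast (by rw [hq]) (ψ (α.map ι)), ?_⟩
  intro α β hα hNα hβ hNβ hαβ L' _ O' ι' hC' hmem''
  have hfk : (fk K f).Monic := hfm.map _
  have h1 : ψ (α.map ι) = ψ (β.map ι) := Fin.cast_injective _ hαβ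
  have h3 := hψ (α.map ι) (β.map ι) (One86.cop_map ι hα) (One86.nsq_map ι hfk hNα)
    (One86.cop_map ι hβ) (One86.nsq_map ι hfk hNβ) h1
  rw [← Polynomial.map_mul] at h3
  exact hTRC K L O ι L' O' ι' hC h2 hC' (fun x => by rw [hmem', hmem'']) f (α * β) hfm hf.2.1
    (irl2 K L O ι hC h2 D Y hD f hf) (hα.mul_left hβ) h3

end DYK85

open DYK85 in
open Classical in
/-- **DYK.** -/
theorem dyk : CMP2Stmt → DYAStmt → DYIStmt → PR2Stmt → TRCStmt → DYKStmt := by
  intro hCMP hDYA hDYI hPR2 hTRC K _ _ D Y hD f hf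
  have hloc := local_psi hCMP hDYA hDYI hTRC hD hf
  have hloc' : ∀ P : HeightOneSpectrum (𝓞 K), ∃ (e : ℕ) (ψ : K[X] → Fin (Nm P ^ e)),
      (2 : 𝓞 K) ∈ P.asIdeal → (2 : 𝓞 K) ∈ P.asIdeal ^ e ∧ ∀ α β : K[X],
      IsCoprime α (fk K f) → NSq (fk K f) α → IsCoprime β (fk K f) → NSq (fk K f) β →
      ψ α = ψ β → ∀ (L : Type) [Field L] (O : ValuationSubring L) (ι : K →+* L),
      Cpl K L O ι → (∀ x : K, ι x ∈ O ↔ x ∈ RP K P) →
      LocSol ((fk K f).map ι) ((α * β).map ι) := by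
    intro P
    by_cases hP : (2 : 𝓞 K) ∈ P.asIdeal
    · obtain ⟨e, h2e, ψ, hψ⟩ := hloc P hP
      exact ⟨e, ψ, fun _ => ⟨h2e, hψ⟩⟩
    · exact ⟨0, fun _ => ⟨0, by rw [pow_zero]; exact Nat.one_pos⟩, fun h => absurd h hP⟩
  choose e ψ hψ using hloc'
  set s : Finset (HeightOneSpectrum (𝓞 K)) := (finite_two (K := K)).toFinset with hs
  have hmem : ∀ P, P ∈ s ↔ (2 : 𝓞 K) ∈ P.asIdeal := by
    intro P
    rw [hs, Set.Finite.mem_toFinset, Set.mem_ofPred_eq]
  have hprod := hPR2 K s e (fun P hP => (hψ P ((hmem P).1 hP)).1)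
  have hcard : Fintype.card (∀ P : s, Fin (Nm P.1 ^ e P.1)) ≤ Fintype.card (Fin (2 ^ dg K)) := by
    rw [Fintype.card_pi, Fintype.card_fin]
    calc ∏ P : s, Fintype.card (Fin (Nm P.1 ^ e P.1)) = ∏ P : s, Nm P.1 ^ e P.1 := by
          apply Finset.prod_congr rfl
          intro P _
          rw [Fintype.card_fin]
      _ = ∏ P ∈ s, Nm P ^ e P := by
          rw [← Finset.prod_coe_sort s (fun P => Nm P ^ e P)]
      _ ≤ 2 ^ dg K := hprod
  obtain ⟨j⟩ := Function.Embedding.nonempty_of_card_le hcard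
  refine ⟨fun α => j (fun P => ψ P.1 α), ?_⟩
  intro α β hα hNα hβ hNβ hαβ L _ O ι hC h2
  have h1 := j.injective hαβ
  obtain ⟨P, π, n, hDyd, hmem', h2e, -⟩ := hDYA K L O ι hC h2
  have hP : (2 : 𝓞 K) ∈ P.asIdeal :=
    Ideal.pow_le_self (Nat.pos_iff_ne_zero.1 hDyd.pos) h2e
  exact (hψ P hP).2 α β hα hNα hβ hNβ (congrFun h1 ⟨P, (hmem P).2 hP⟩) L O ι hC hmem'

end Pool.PNF
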